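import Pool.Agent.Helper54.SP.Stmts

set_option autoImplicit false

/-! Module F4: the fan around `(1,1)`. -/

namespace Pool.Agent.Helper54.SP

theorem f4_sk (Γ : List Gt) (p : ℕ) :
    8 * (grp p - 1) ≤ sk Γ p ∧ sk Γ p ≤ 8 * (grp p - 1) + 7 := by
  unfold sk
  constructor <;> omega

theorem f4_grp {p q : ℕ} (h : p ≤ q) : grp p ≤ grp q := by
  unfold grp
  omega

theorem f4_grp1 {p : ℕ} (h : 4 ≤ p) : 1 ≤ grp p := by
  unfold grp
  omega

theorem f4_dsg {Γ : List Gt} {p q : ℕ} (h : (gat Γ p).k = true) :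
    dsg Γ 3 p q = decide (sk Γ q < sk Γ p) := by
  unfold dsg
  rw [if_pos h, if_pos rfl]

theorem f4_sg0 {Γ : List Gt} {p q : ℕ} (hp : 4 ≤ p) (h : (gat Γ p).k = true)
    (hy : 2 ≤ yk Γ p) :
    sg0 Γ 3 p q = if grp p < grp q then false else decide (sk Γ q < sk Γ p) := by
  unfold sg0
  rw [if_neg (by norm_num), if_neg (by norm_num)]
  by_cases h1 : grp p < grp q
  · rw [if_pos h1, if_pos h1]
    have h2 : yk Γ 3 = 1 := by
      unfold yk
      rw [if_pos (by norm_num)]
    rw [h2, decide_eq_false_iff_not]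
    omega
  · rw [if_neg h1, if_neg h1]
    have h2 : grp 3 < grp p := by
      have := f4_grp1 hp
      have h3 : grp 3 = 0 := rfl
      omega
    rw [if_pos h2, f4_dsg h]

theorem st_F4 (hK : ST_KINJ) : ST_F4 := by
  intro Γ nw hWF p q hp hq hpN hqN hkp hkq hsk
  obtain ⟨-, -, -, -, hb⟩ := hK Γ nw hWF
  obtain ⟨-, -, hyp, -⟩ := hb p hp hpN
  obtain ⟨-, -, hyq, -⟩ := hb q hq hqN
  have hne : p ≠ q := by
    rintro rfl
    exact lt_irrefl _ hsk
  have h3p : 3 < p := by omega
  have h3q : 3 < q := by omega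
  rcases lt_or_gt_of_ne hne with hlt | hlt
  · have h1 : sg0 Γ 3 p q = false := by
      rw [f4_sg0 hp hkp hyp]
      split_ifs
      · rfl
      · rw [decide_eq_false_iff_not]
        omega
    refine ⟨?_, ?_⟩
    · unfold sg3
      rw [if_pos h3p, if_pos hlt, h1]
    · unfold sg3
      rw [if_pos h3q, if_neg (by omega), if_pos h3p, h1]
      rfl
  · have h1 : sg0 Γ 3 q p = true := by
      rw [f4_sg0 hq hkq hyq, if_neg]
      · rw [decide_eq_true_iff]
        exact hsk
      · intro h2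
        have h3 := (f4_sk Γ q).2
        have h4 := (f4_sk Γ p).1
        have h5 := f4_grp1 hq
        omega
    refine ⟨?_, ?_⟩
    · unfold sg3
      rw [if_pos h3p, if_neg (by omega), if_pos h3q, h1]
      rfl
    · unfold sg3
      rw [if_pos h3q, if_pos hlt, h1]

end Pool.Agent.Helper54.SP
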