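import Pool.Agent.Helper54.SP.StmtsP

set_option autoImplicit false

/-! Module PH: passing to affine coordinates. -/

namespace Pool.Agent.Helper54.SP

open Finset

def ph_T (d : ℕ) : Matrix (Fin (d + 1)) (Fin (d + 1)) ℝ :=
  Matrix.of fun j k => if j = k then 1 else if k = Fin.last d then -1 else 0

theorem ph_det (d : ℕ) : (ph_T d).det = 1 := by
  rw [Matrix.det_of_isUpperTriangular]
  · refine Finset.prod_eq_one ?_
    intro i _
    unfold ph_T
    rw [Matrix.of_apply, if_pos rfl]
  · intro j k hjk
    have h1 : k < j := hjk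
    unfold ph_T
    rw [Matrix.of_apply, if_neg h1.ne', if_neg]
    intro h2
    rw [h2] at h1
    exact absurd (Fin.le_last j) (not_le.2 h1)

theorem ph_row (d : ℕ) (x : ℕ → ℝ) (s : ℝ) (hs : s ≠ 0) (hx : s = ∑ j ∈ range (d + 1), x j)
    (k : Fin (d + 1)) :
    s * ∑ j : Fin (d + 1), (if (j : ℕ) < d then x j / s else 1) * ph_T d j k = x k := by
  have hc : ∀ j : Fin d, ((j.castSucc : Fin (d + 1)) : ℕ) < d := fun j => j.2
  have hl : ¬ ((Fin.last d : Fin (d + 1)) : ℕ) < d := by simp
  rw [Fin.sum_univ_castSucc, if_neg hl, one_mul]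
  rw [Finset.sum_range_succ, Finset.sum_range] at hx
  induction k using Fin.lastCases with
  | last =>
    have h1 : ∀ j : Fin d, ph_T d j.castSucc (Fin.last d) = -1 := by
      intro j
      unfold ph_T
      rw [Matrix.of_apply, if_neg (Fin.castSucc_lt_last j).ne, if_pos rfl]
    have h2 : ph_T d (Fin.last d) (Fin.last d) = 1 := by
      unfold ph_T
      rw [Matrix.of_apply, if_pos rfl]
    have h3 : ∑ j : Fin d, (if ((j.castSucc : Fin (d + 1)) : ℕ) < d then
        x (j.castSucc : Fin (d + 1)) / s else 1) * ph_T d j.castSucc (Fin.last d) =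
        -((∑ j : Fin d, x j) / s) := by
      rw [Finset.sum_div, ← Finset.sum_neg_distrib]
      refine Finset.sum_congr rfl ?_
      intro j _
      rw [if_pos (hc j), h1]
      simp
    rw [h3, h2, Fin.val_last]
    field_simp
    linarith
  | cast k =>
    have h2 : ph_T d (Fin.last d) k.castSucc = 0 := by
      unfold ph_T
      rw [Matrix.of_apply, if_neg (Fin.castSucc_lt_last k).ne', if_neg (Fin.castSucc_lt_last k).ne]
    rw [h2, add_zero, Finset.sum_eq_single k]
    · rw [if_pos (hc k)]
      have h3 : ph_T d k.castSucc k.castSucc = 1 := by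
        unfold ph_T
        rw [Matrix.of_apply, if_pos rfl]
      rw [h3, mul_one]
      field_simp
    · intro j _ hj
      have h3 : ph_T d j.castSucc k.castSucc = 0 := by
        unfold ph_T
        rw [Matrix.of_apply, if_neg (fun h => hj (Fin.castSucc_injective d h)),
          if_neg (Fin.castSucc_lt_last k).ne]
      rw [h3, mul_zero]
    · intro h
      exact absurd (Finset.mem_univ k) h

theorem st_PH : ST_PH := by
  intro d X l hl hpos
  have hmem : ∀ i : Fin (d + 1), l.getD i 0 ∈ l := by
    intro i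
    have h1 : (i : ℕ) < l.length := by rw [hl]; exact i.2
    rw [List.getD_eq_getElem _ _ h1]
    exact List.getElem_mem h1
  have hs : ∀ i : Fin (d + 1), 0 < ∑ j ∈ range (d + 1), X (l.getD i 0) j := fun i =>
    hpos _ (hmem i)
  refine ⟨∏ i : Fin (d + 1), ∑ j ∈ range (d + 1), X (l.getD i 0) j,
    Finset.prod_pos fun i _ => hs i, ?_⟩
  unfold dt
  have h1 : (Matrix.of fun i j : Fin (d + 1) => X (l.getD i 0) j) =
      Matrix.diagonal (fun i : Fin (d + 1) => ∑ j ∈ range (d + 1), X (l.getD i 0) j) *
      ((Matrix.of fun i j : Fin (d + 1) =>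
        hom d (fun i j => X i j / ∑ j ∈ range (d + 1), X i j) (l.getD i 0) j) * ph_T d) := by
    ext i k
    rw [Matrix.diagonal_mul, Matrix.mul_apply, Matrix.of_apply]
    rw [← ph_row d (X (l.getD i 0)) _ (hs i).ne' rfl k]
    rfl
  rw [h1, Matrix.det_mul, Matrix.det_mul, Matrix.det_diagonal, ph_det, mul_one]

end Pool.Agent.Helper54.SP
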