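import Pool.Agent.Helper54.SP.StmtsP

set_option autoImplicit false

/-! Module PRM: abstract permutation invariance. -/

namespace Pool.Agent.Helper54.SP

theorem prm_aux {k n : ℕ} {χ : List ℕ → Bool} (h : Alt k n χ) {l l' : List ℕ} (hp : l.Perm l') :
    ∃ b : Bool, ∀ s t : List ℕ, (s ++ (l ++ t)).length = k → (s ++ (l ++ t)).Nodup →
      (∀ i ∈ s ++ (l ++ t), i < n) → χ (s ++ (l' ++ t)) = xor b (χ (s ++ (l ++ t))) := by
  induction hp with
  | nil => exact ⟨false, fun s t _ _ _ => (Bool.false_xor _).symm⟩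
  | cons a _ ih =>
    obtain ⟨b, hb⟩ := ih
    refine ⟨b, fun s t h1 h2 h3 => ?_⟩
    have e : ∀ m : List ℕ, s ++ (a :: m ++ t) = (s ++ [a]) ++ (m ++ t) := by
      intro m
      simp
    rw [e] at h1 h2 h3 ⊢
    rw [e]
    exact hb _ _ h1 h2 h3
  | swap a b l =>
    refine ⟨true, fun s t h1 h2 h3 => ?_⟩
    rw [Bool.true_xor]
    exact h s (l ++ t) b a h1 h2 h3
  | trans hp1 hp2 ih1 ih2 =>
    obtain ⟨b1, hb1⟩ := ih1
    obtain ⟨b2, hb2⟩ := ih2
    refine ⟨xor b2 b1, fun s t h1 h2 h3 => ?_⟩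
    have hq := (hp1.append_right t).append_left s
    rw [hb2 s t (hq.length_eq ▸ h1) (hq.nodup_iff.1 h2) (fun i hi => h3 i (hq.mem_iff.2 hi)),
      hb1 s t h1 h2 h3, Bool.xor_assoc]

theorem st_PRM : ST_PRM := by
  intro k n χ h l l' hp hnd hlen hlt
  obtain ⟨b, hb⟩ := prm_aux h hp
  refine ⟨b, fun x hx hxl => ?_⟩
  refine hb [] [x] ?_ ?_ ?_
  · simp [hlen]
  · rw [List.nil_append]
    refine List.Nodup.append hnd (List.nodup_singleton x) ?_
    intro i hi hi'
    rw [List.mem_singleton] at hi'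
    exact hxl (hi' ▸ hi)
  · intro i hi
    rw [List.nil_append, List.mem_append, List.mem_singleton] at hi
    rcases hi with hi | hi
    · exact hlt i hi
    · exact hi ▸ hx

end Pool.Agent.Helper54.SP
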